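import Pool.Agent.helper29.RS.SpecK

/-!
Row ALH of project RS: bounds for the Fourier transform of a nonnegative function of small support.
-/

set_option autoImplicit false

namespace Pool.Agent.RS

open scoped MatrixGroups ContDiff Topology UpperHalfPlane ComplexConjugate
open UpperHalfPlane MeasureTheory Filter Set

theorem ALH_cs (w : ℝ) (α : ℝ → ℝ) (h : SB w α) : HasCompactSupport α := by
  refine HasCompactSupport.of_support_subset_isCompact (isCompact_Icc (a := -w) (b := w)) ?_
  intro x hx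
  have := h.2 x hx
  exact ⟨(abs_le.mp this).1, (abs_le.mp this).2⟩

theorem ALH_int (w : ℝ) (α : ℝ → ℝ) (h : SB w α) : Integrable α :=
  h.1.continuous.integrable_of_hasCompactSupport (ALH_cs w α h)

theorem ALH_norm (a σ τ : ℝ) (ha : 0 ≤ a) :
    ‖(a : ℂ) * Complex.exp (-((σ * τ : ℝ) : ℂ) * Complex.I)‖ = a := by
  have h1 : (-((σ * τ : ℝ) : ℂ) * Complex.I) = ((-(σ * τ) : ℝ) : ℂ) * Complex.I := by push_cast; ring
  rw [norm_mul, h1, Complex.norm_exp_ofReal_mul_I, mul_one, Complex.norm_real, Real.norm_of_nonneg ha]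

theorem ALH_re (a σ τ : ℝ) :
    ((a : ℂ) * Complex.exp (-((σ * τ : ℝ) : ℂ) * Complex.I)).re = a * Real.cos (σ * τ) := by
  have h1 : (-((σ * τ : ℝ) : ℂ) * Complex.I) = ((-(σ * τ) : ℝ) : ℂ) * Complex.I := by push_cast; ring
  rw [h1, Complex.re_ofReal_mul, Complex.exp_ofReal_mul_I_re, Real.cos_neg]

theorem ALH : ALH_stmt := by
  intro w α hw hw1 hS hpos
  have hint := ALH_int w α hS
  have hcs := ALH_cs w α hS
  have hcont : ∀ σ : ℝ, Continuous fun τ : ℝ => (α τ : ℂ) * Complex.exp (-((σ * τ : ℝ) : ℂ) * Complex.I) := by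
    intro σ
    have hα := hS.1.continuous
    fun_prop
  refine ⟨fun σ => ?_, fun σ hσ => ?_⟩
  · unfold hF
    refine (norm_integral_le_integral_norm _).trans (le_of_eq ?_)
    refine integral_congr_ae (Eventually.of_forall fun τ => ?_)
    exact ALH_norm (α τ) σ τ (hpos τ)
  · have hI : Integrable fun τ : ℝ => (α τ : ℂ) * Complex.exp (-((σ * τ : ℝ) : ℂ) * Complex.I) := by
      refine Integrable.mono' hint (hcont σ).aestronglyMeasurable (Eventually.of_forall fun τ => ?_)
      exact (ALH_norm (α τ) σ τ (hpos τ)).le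
    have h1 : (hF α σ).re = ∫ τ : ℝ, α τ * Real.cos (σ * τ) := by
      unfold hF
      have h2 := integral_re (𝕜 := ℂ) hI
      have h3 : (∫ τ : ℝ, (α τ : ℂ) * Complex.exp (-((σ * τ : ℝ) : ℂ) * Complex.I)).re =
          ∫ τ : ℝ, ((α τ : ℂ) * Complex.exp (-((σ * τ : ℝ) : ℂ) * Complex.I)).re := h2.symm
      rw [h3]
      refine integral_congr_ae (Eventually.of_forall fun τ => ?_)
      exact ALH_re (α τ) σ τ
    have hI2 : Integrable fun τ : ℝ => α τ * Real.cos (σ * τ) := by
      refine Integrable.mono' hint ?_ (Eventually.of_forall fun τ => ?_)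
      · have hα := hS.1.continuous
        exact (by fun_prop : Continuous fun τ : ℝ => α τ * Real.cos (σ * τ)).aestronglyMeasurable
      · rw [norm_mul, Real.norm_of_nonneg (hpos τ)]
        exact mul_le_of_le_one_right (hpos τ) (Real.abs_cos_le_one _)
    have h4 : (1 - w ^ 2) * ∫ x : ℝ, α x ≤ (hF α σ).re := by
      rw [h1, ← integral_const_mul]
      refine integral_mono (hint.const_mul _) hI2 fun τ => ?_
      show (1 - w ^ 2) * α τ ≤ α τ * Real.cos (σ * τ)
      by_cases hτ : α τ = 0
      · rw [hτ]; simp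
      · have h5 := hS.2 τ hτ
        have h6 := Real.one_sub_sq_div_two_le_cos (x := σ * τ)
        have h7 : (σ * τ) ^ 2 ≤ w ^ 2 := by
          rw [← sq_abs, abs_mul]
          have h8 : |σ| * |τ| ≤ 1 * w := mul_le_mul hσ h5 (abs_nonneg _) zero_le_one
          have h9 : 0 ≤ |σ| * |τ| := by positivity
          nlinarith
        have h10 : 1 - w ^ 2 ≤ Real.cos (σ * τ) := by nlinarith
        rw [mul_comm]
        exact mul_le_mul_of_nonneg_left h10 (hpos τ)
    exact h4.trans (Complex.re_le_norm _)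

end Pool.Agent.RS
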