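import Pool.Agent.helper29.RS.SpecK
import Pool.Agent.helper62.QU.INV

/-!
Row CV1 of project RS: the coordinates `z = x + i e^τ`.
-/

set_option autoImplicit false

namespace Pool.Agent.RS

open scoped MatrixGroups ContDiff Topology UpperHalfPlane ComplexConjugate
open UpperHalfPlane MeasureTheory Filter Set

theorem CV1_coe {w : ℂ} (hw : 0 < w.im) : ((ofComplex w : ℍ) : ℂ) = w :=
  ofComplex_apply_of_im_pos hw ▸ rfl

theorem CV1_im {w : ℂ} (hw : 0 < w.im) : (ofComplex w).im = w.im := by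
  rw [← UpperHalfPlane.coe_im, CV1_coe hw]

theorem CV1_re {w : ℂ} (hw : 0 < w.im) : (ofComplex w).re = w.re := by
  rw [← UpperHalfPlane.coe_re, CV1_coe hw]

theorem CV1_pt (x τ : ℝ) : ofComplex (⟨x, Real.exp τ⟩ : ℂ) = pt x τ := by
  rw [ofComplex_apply_of_im_pos (Real.exp_pos τ)]
  rfl

theorem CV1_ofc {w : ℂ} (hw : 0 < w.im) : ContinuousAt ofComplex w := by
  apply ofComplex.continuousAt
  show w ∈ ofComplex.source
  have h : ofComplex.source = Set.range UpperHalfPlane.coe := by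
    simp [ofComplex]
  rw [h]
  exact ⟨⟨w, hw⟩, rfl⟩

theorem CV1_int (f : ℍ → ℂ) (hf : Continuous f) (hc : HasCompactSupport f) :
    IntegrableOn (fun w : ℂ => ((w.im ^ 2)⁻¹ : ℝ) • f (ofComplex w)) {w : ℂ | 0 < w.im} := by
  have hS : IsCompact (UpperHalfPlane.coe '' tsupport f) := hc.isCompact.image UpperHalfPlane.continuous_coe
  refine IntegrableOn.of_forall_sdiff_eq_zero (s := UpperHalfPlane.coe '' tsupport f) ?_
    (measurableSet_lt measurable_const Complex.measurable_im) ?_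
  · refine ContinuousOn.integrableOn_compact hS ?_
    rintro w ⟨z, -, rfl⟩
    refine ContinuousAt.continuousWithinAt ?_
    have h1 : ContinuousAt (fun w : ℂ => ((w.im ^ 2)⁻¹ : ℝ)) (z : ℂ) := by
      refine ContinuousAt.inv₀ (by fun_prop) ?_
      exact pow_ne_zero 2 z.im_ne_zero
    exact h1.smul (hf.continuousAt.comp (CV1_ofc z.im_pos))
  · rintro w ⟨hw, hw2⟩
    have h2 : f (ofComplex w) = 0 := by
      by_contra h3
      exact hw2 ⟨ofComplex w, subset_tsupport f h3, CV1_coe hw⟩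
    show ((w.im ^ 2)⁻¹ : ℝ) • f (ofComplex w) = 0
    rw [h2, smul_zero]

theorem CV1_A (K : ℂ → ℂ) : ∫ w in {w : ℂ | 0 < w.im}, K w =
    ∫ p in (univ : Set ℝ) ×ˢ Ioi (0 : ℝ), K ⟨p.1, p.2⟩ := by
  have h := Complex.volume_preserving_equiv_real_prod.setIntegral_preimage_emb
    Complex.measurableEquivRealProd.measurableEmbedding (fun p : ℝ × ℝ => K ⟨p.1, p.2⟩)
    ((univ : Set ℝ) ×ˢ Ioi (0 : ℝ))
  rw [← h]
  have h2 : Complex.measurableEquivRealProd ⁻¹' ((univ : Set ℝ) ×ˢ Ioi (0 : ℝ)) = {w : ℂ | 0 < w.im} := by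
    ext w
    simp [Complex.measurableEquivRealProd]
  rw [h2]
  rfl

theorem CV1_AI (K : ℂ → ℂ) (hK : IntegrableOn K {w : ℂ | 0 < w.im}) :
    IntegrableOn (fun p : ℝ × ℝ => K ⟨p.1, p.2⟩) ((univ : Set ℝ) ×ˢ Ioi (0 : ℝ)) := by
  have h := Complex.volume_preserving_equiv_real_prod.integrableOn_comp_preimage
    Complex.measurableEquivRealProd.measurableEmbedding (f := fun p : ℝ × ℝ => K ⟨p.1, p.2⟩)
    (s := (univ : Set ℝ) ×ˢ Ioi (0 : ℝ))
  rw [← h]
  have h2 : Complex.measurableEquivRealProd ⁻¹' ((univ : Set ℝ) ×ˢ Ioi (0 : ℝ)) = {w : ℂ | 0 < w.im} := by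
    ext w
    simp [Complex.measurableEquivRealProd]
  rw [h2]
  exact hK

theorem CV1_B (K : ℂ → ℂ) (hK : IntegrableOn K {w : ℂ | 0 < w.im}) :
    ∫ w in {w : ℂ | 0 < w.im}, K w = ∫ y in Ioi (0 : ℝ), ∫ x : ℝ, K ⟨x, y⟩ := by
  rw [CV1_A]
  have h1 := CV1_AI K hK
  have h2 := setIntegral_prod_swap (μ := (volume : Measure ℝ)) (ν := (volume : Measure ℝ))
    (univ : Set ℝ) (Ioi (0 : ℝ)) (fun p : ℝ × ℝ => K ⟨p.1, p.2⟩)
  have h3 : ∫ p in (univ : Set ℝ) ×ˢ Ioi (0 : ℝ), K ⟨p.1, p.2⟩ =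
      ∫ z in Ioi (0 : ℝ) ×ˢ (univ : Set ℝ), K ⟨z.swap.1, z.swap.2⟩ ∂(volume.prod volume) := h2.symm
  rw [h3, setIntegral_prod]
  · simp
  · exact h1.swap

theorem CV1_C (h : ℝ → ℂ) : ∫ y in Ioi (0 : ℝ), h y = ∫ τ : ℝ, (Real.exp τ : ℝ) • h (Real.exp τ) := by
  have h1 := integral_image_eq_integral_abs_deriv_smul (s := (univ : Set ℝ)) (f := Real.exp)
    (f' := Real.exp) MeasurableSet.univ (fun x _ => (Real.hasDerivAt_exp x).hasDerivWithinAt)
    Real.exp_injective.injOn h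
  rw [image_univ, Real.range_exp] at h1
  rw [h1, Measure.restrict_univ]
  refine integral_congr_ae (Eventually.of_forall fun τ => ?_)
  show |Real.exp τ| • h (Real.exp τ) = _
  rw [abs_of_pos (Real.exp_pos τ)]

theorem CV1_1 (f : ℍ → ℂ) (hf : Continuous f) (hc : HasCompactSupport f) :
    ∫ z : ℍ, f z = ∫ τ : ℝ, ∫ x : ℝ, ((Real.exp (-τ) : ℝ) : ℂ) * f (pt x τ) := by
  rw [QU.INV_e, CV1_B _ (CV1_int f hf hc), CV1_C]
  refine integral_congr_ae (Eventually.of_forall fun τ => ?_)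
  show (Real.exp τ : ℝ) • (∫ x : ℝ, (((Real.exp τ) ^ 2)⁻¹ : ℝ) • f (ofComplex (⟨x, Real.exp τ⟩ : ℂ))) = _
  rw [← integral_smul]
  refine integral_congr_ae (Eventually.of_forall fun x => ?_)
  show (Real.exp τ : ℝ) • ((((Real.exp τ) ^ 2)⁻¹ : ℝ) • f (ofComplex (⟨x, Real.exp τ⟩ : ℂ))) =
    ((Real.exp (-τ) : ℝ) : ℂ) * f (pt x τ)
  rw [CV1_pt, smul_smul, Complex.real_smul]
  have h1 : Real.exp τ * ((Real.exp τ) ^ 2)⁻¹ = Real.exp (-τ) := by
    rw [Real.exp_neg]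
    have := (Real.exp_pos τ).ne'
    field_simp
  rw [h1]

theorem CV1_mk (x e : ℝ) : (x : ℂ) + ((e : ℝ) : ℂ) * Complex.I = ⟨x, e⟩ := by
  apply Complex.ext <;> simp

theorem CV1_ptcont : Continuous fun p : ℝ × ℝ => pt p.1 p.2 := by
  rw [isEmbedding_coe.continuous_iff]
  have h : (UpperHalfPlane.coe ∘ fun p : ℝ × ℝ => pt p.1 p.2) =
      fun p : ℝ × ℝ => (p.1 : ℂ) + ((Real.exp p.2 : ℝ) : ℂ) * Complex.I := by
    funext p
    rw [CV1_mk]
    rfl
  rw [h]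
  fun_prop

theorem CV1_ptre (x τ : ℝ) : (pt x τ).re = x := rfl

theorem CV1_ptim (x τ : ℝ) : (pt x τ).im = Real.exp τ := rfl

theorem CV1_eq (z : ℍ) : z = pt z.re (Real.log z.im) := by
  apply UpperHalfPlane.ext
  apply Complex.ext
  · rfl
  · show z.im = Real.exp (Real.log z.im)
    rw [Real.exp_log z.im_pos]

theorem CV1_cb (c : ℍ → ℂ) (hc : TB (1 / 4) c) : CB (cc c) := by
  refine ⟨?_, ?_⟩
  · have h1 : ContDiff ℝ ∞ fun p : ℝ × ℝ => (p.1 : ℂ) + ((Real.exp p.2 : ℝ) : ℂ) * Complex.I := by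
      have h2 : ContDiff ℝ ∞ fun p : ℝ × ℝ => (p.1 : ℂ) := Complex.ofRealCLM.contDiff.comp contDiff_fst
      have h3 : ContDiff ℝ ∞ fun p : ℝ × ℝ => ((Real.exp p.2 : ℝ) : ℂ) :=
        Complex.ofRealCLM.contDiff.comp (Real.contDiff_exp.comp contDiff_snd)
      exact h2.add (h3.mul contDiff_const)
    have h4 := ContDiffOn.comp_contDiff hc.1 h1 (fun p => by
      show 0 < ((p.1 : ℂ) + ((Real.exp p.2 : ℝ) : ℂ) * Complex.I).im
      rw [CV1_mk]
      exact Real.exp_pos _)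
    have h5 : (fun p : ℝ × ℝ => cc c p.1 p.2) =
        (QU.onC c ∘ fun p : ℝ × ℝ => (p.1 : ℂ) + ((Real.exp p.2 : ℝ) : ℂ) * Complex.I) := by
      funext p
      show c (pt p.1 p.2) = c (ofComplex ((p.1 : ℂ) + ((Real.exp p.2 : ℝ) : ℂ) * Complex.I))
      rw [← CV1_pt, CV1_mk]
    rw [h5]
    exact h4
  · intro x τ h
    have h1 := hc.2 (pt x τ) h
    rw [CV1_ptre, CV1_ptim, Real.log_exp] at h1
    exact h1

theorem CV1_cs (w : ℝ) (c : ℍ → ℂ) (hc : TB w c) : HasCompactSupport c := by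
  have hK : IsCompact ((fun p : ℝ × ℝ => pt p.1 p.2) '' (Icc (-w) w ×ˢ Icc (-w) w)) :=
    (isCompact_Icc.prod isCompact_Icc).image CV1_ptcont
  refine HasCompactSupport.of_support_subset_isCompact hK ?_
  intro z hz
  have h1 := hc.2 z hz
  exact ⟨(z.re, Real.log z.im), ⟨abs_le.mp h1.1, abs_le.mp h1.2⟩, (CV1_eq z).symm⟩

theorem CV1_cont (w : ℝ) (c : ℍ → ℂ) (hc : TB w c) : Continuous c := by
  have h2 : c = fun z : ℍ => QU.onC c (z : ℂ) := by
    funext z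
    show c z = c (ofComplex (z : ℂ))
    rw [ofComplex_apply]
  rw [h2]
  exact hc.1.continuousOn.comp_continuous UpperHalfPlane.continuous_coe (fun z => z.im_pos)

theorem CV1_pw (x τ r s t : ℝ) (C : ℂ) :
    ((Real.exp (-τ) : ℝ) : ℂ) * (C * ((Real.exp τ : ℝ) : ℂ) ^ ((1 / 2 : ℂ) + (r : ℂ) * Complex.I) *
      ((Real.exp τ / ((x - t) ^ 2 + Real.exp τ ^ 2) : ℝ) : ℂ) ^ ((1 / 2 : ℂ) - (s : ℂ) * Complex.I)) =
    C * Complex.exp ((((r - s) * τ : ℝ) : ℂ) * Complex.I) *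
      ((((x - t) ^ 2 + Real.exp (2 * τ) : ℝ)) : ℂ) ^ (-(1 / 2 : ℂ) + (s : ℂ) * Complex.I) := by
  have e2 : Real.exp (2 * τ) = Real.exp τ ^ 2 := by
    rw [← Real.exp_nat_mul]; norm_num
  rw [e2]
  have hD : 0 < (x - t) ^ 2 + Real.exp τ ^ 2 := by positivity
  set D : ℝ := (x - t) ^ 2 + Real.exp τ ^ 2 with hDd
  obtain ⟨L, hL⟩ : ∃ L : ℝ, D = Real.exp L := ⟨Real.log D, (Real.exp_log hD).symm⟩
  have hq : Real.exp τ / D = Real.exp (τ - L) := by rw [hL, Real.exp_sub]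
  have hpow : ∀ (u : ℝ) (a : ℂ), ((Real.exp u : ℝ) : ℂ) ^ a = Complex.exp ((u : ℂ) * a) := by
    intro u a
    rw [Complex.cpow_def_of_ne_zero (by exact_mod_cast (Real.exp_pos u).ne'), ← Complex.ofReal_log (Real.exp_pos u).le,
      Real.log_exp]
  rw [hq, hL, hpow, hpow, hpow, Complex.ofReal_exp]
  have h3 : ∀ a b c : ℂ, Complex.exp a * (C * Complex.exp b * Complex.exp c) = C * Complex.exp (a + b + c) := by
    intro a b c
    rw [Complex.exp_add, Complex.exp_add]; ring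
  have h4 : ∀ b c : ℂ, C * Complex.exp b * Complex.exp c = C * Complex.exp (b + c) := by
    intro b c
    rw [Complex.exp_add]; ring
  rw [h3, h4]
  congr 2
  push_cast
  ring

theorem CV1_cpw (t : ℝ) (a : ℂ) : Continuous fun z : ℍ => ((Pk z t : ℝ) : ℂ) ^ a := by
  have hpos : ∀ z : ℍ, 0 < Pk z t := by
    intro z
    have h1 := z.im_pos
    unfold Pk
    positivity
  have h1 : Continuous fun z : ℍ => Pk z t := by
    unfold Pk
    refine Continuous.div UpperHalfPlane.continuous_im ?_ ?_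
    · exact ((UpperHalfPlane.continuous_re.sub continuous_const).pow 2).add (UpperHalfPlane.continuous_im.pow 2)
    · intro z
      have h1 := z.im_pos
      positivity
  refine Continuous.cpow (Complex.continuous_ofReal.comp h1) continuous_const ?_
  intro z
  exact Or.inl (by simpa using hpos z)

theorem CV1_cim (a : ℂ) : Continuous fun z : ℍ => ((z.im : ℝ) : ℂ) ^ a := by
  refine Continuous.cpow (Complex.continuous_ofReal.comp UpperHalfPlane.continuous_im) continuous_const ?_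
  intro z
  exact Or.inl (by simpa using z.im_pos)

theorem CV1_2 (c : ℍ → ℂ) (hc : TB (1 / 4) c) (r s t : ℝ) :
    ∫ z : ℍ, pk r c z * ((Pk z t : ℝ) : ℂ) ^ ((1 / 2 : ℂ) - (s : ℂ) * Complex.I) = bI (cc c) r s t := by
  have hcs := CV1_cs _ c hc
  have hcc := CV1_cont _ c hc
  have h1 : HasCompactSupport fun z : ℍ =>
      pk r c z * ((Pk z t : ℝ) : ℂ) ^ ((1 / 2 : ℂ) - (s : ℂ) * Complex.I) := by
    have h2 : HasCompactSupport (pk r c) := by
      unfold pk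
      exact hcs.mul_right
    exact h2.mul_right
  have h3 : Continuous fun z : ℍ =>
      pk r c z * ((Pk z t : ℝ) : ℂ) ^ ((1 / 2 : ℂ) - (s : ℂ) * Complex.I) := by
    unfold pk
    exact (hcc.mul (CV1_cim _)).mul (CV1_cpw t _)
  rw [CV1_1 _ h3 h1]
  unfold bI
  refine integral_congr_ae (Eventually.of_forall fun τ => ?_)
  refine integral_congr_ae (Eventually.of_forall fun x => ?_)
  show ((Real.exp (-τ) : ℝ) : ℂ) * (c (pt x τ) * (((pt x τ).im : ℝ) : ℂ) ^ ((1 / 2 : ℂ) + (r : ℂ) * Complex.I) *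
    ((Pk (pt x τ) t : ℝ) : ℂ) ^ ((1 / 2 : ℂ) - (s : ℂ) * Complex.I)) = _
  unfold Pk
  rw [CV1_ptim, CV1_ptre, CV1_pw]
  rfl

theorem CV1_3 (w : ℝ) (α β : ℝ → ℝ) (hα : SB w α) (hβ : SB w β) : TB w (pc β α) := by
  refine ⟨?_, ?_⟩
  · unfold QU.CD
    have h1 : ContDiffOn ℝ ∞ (fun w : ℂ => ((β w.re * α (Real.log w.im) : ℝ) : ℂ)) {w : ℂ | 0 < w.im} := by
      have h2 : ContDiffOn ℝ ∞ (fun w : ℂ => β w.re) {w : ℂ | 0 < w.im} :=
        (hβ.1.comp Complex.reCLM.contDiff).contDiffOn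
      have h3 : ContDiffOn ℝ ∞ (fun w : ℂ => Real.log w.im) {w : ℂ | 0 < w.im} :=
        (Complex.imCLM.contDiff.contDiffOn).log (fun w hw => ne_of_gt hw)
      have h4 : ContDiffOn ℝ ∞ (fun w : ℂ => α (Real.log w.im)) {w : ℂ | 0 < w.im} :=
        hα.1.comp_contDiffOn h3
      exact Complex.ofRealCLM.contDiff.comp_contDiffOn (h2.mul h4)
    refine h1.congr ?_
    intro w hw
    show ((β (ofComplex w).re * α (Real.log (ofComplex w).im) : ℝ) : ℂ) = _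
    rw [CV1_im hw, CV1_re hw]
  · intro z hz
    have h1 : β z.re * α (Real.log z.im) ≠ 0 := by
      intro h0
      exact hz (by unfold pc; rw [h0, Complex.ofReal_zero])
    exact ⟨hβ.2 _ (left_ne_zero_of_mul h1), hα.2 _ (right_ne_zero_of_mul h1)⟩

theorem CV1 : CV1_stmt := by
  refine ⟨CV1_1, fun c hc => ⟨CV1_cb c hc, CV1_cs _ c hc, CV1_2 c hc⟩, ?_⟩
  intro w α β hα hβ
  refine ⟨CV1_3 w α β hα hβ, ?_, ?_, ?_, ?_⟩
  · funext x τ
    show ((β (pt x τ).re * α (Real.log (pt x τ).im) : ℝ) : ℂ) = ((β x * α τ : ℝ) : ℂ)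
    rw [CV1_ptre, CV1_ptim, Real.log_exp]
  · funext z
    show ((z.re : ℝ) : ℂ) * ((β z.re * α (Real.log z.im) : ℝ) : ℂ) =
      ((z.re * β z.re * α (Real.log z.im) : ℝ) : ℂ)
    push_cast
    ring
  · exact contDiff_id.mul hβ.1
  · intro x hx
    exact hβ.2 x (right_ne_zero_of_mul hx)

end Pool.Agent.RS
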