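import Pool.Agent.helper62.RS.SpecE
import Pool.Agent.helper62.QU.All

/-!
Row EFD of project RS: any fundamental domain.
-/

set_option autoImplicit false

open scoped MatrixGroups ContDiff Topology UpperHalfPlane ComplexConjugate
open UpperHalfPlane MeasureTheory Filter Set

namespace Pool.Agent.RS

theorem EFD_int (Γ : Subgroup SL(2, ℝ)) (F F₀ : Set ℍ) (hΓ : QU.SurfaceGroup Γ) (hF₀ : QU.NiceDom Γ F₀)
    (hF : IsFundamentalDomain Γ F (volume : Measure ℍ)) (E : Type) [NormedAddCommGroup E] [NormedSpace ℝ E]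
    (f : ℍ → E) (hf : ∀ (γ : Γ) (z : ℍ), f (γ • z) = f z) : ∫ z in F, f z = ∫ z in F₀, f z := by
  have h1 := QU.A_DOB Γ F₀ hΓ hF₀
  have := h1.1
  have := QU.INV_b Γ
  exact hF.setIntegral_eq h1.2.1 hf

theorem EFD_fam (Γ : Subgroup SL(2, ℝ)) (F F₀ : Set ℍ) (hΓ : QU.SurfaceGroup Γ) (hF₀ : QU.NiceDom Γ F₀)
    (hF : IsFundamentalDomain Γ F (volume : Measure ℍ)) (r : ℝ) (N : ℕ) (s : Fin N → ℝ) (φ : Fin N → ℍ → ℂ)
    (h : EFam Γ F r N s φ) : EFam Γ F₀ r N s φ := by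
  refine ⟨h.1, h.2.1, fun i j => ?_⟩
  rw [← EFD_int Γ F F₀ hΓ hF₀ hF ℂ (fun z => φ i z * (starRingEnd ℂ) (φ j z)) ?_]
  · exact h.2.2 i j
  · intro γ z
    show φ i (γ • z) * (starRingEnd ℂ) (φ j (γ • z)) = φ i z * (starRingEnd ℂ) (φ j z)
    rw [(h.2.1 i).2.1, (h.2.1 j).2.1]

theorem EFD_sq (Γ : Subgroup SL(2, ℝ)) (F F₀ : Set ℍ) (hΓ : QU.SurfaceGroup Γ) (hF₀ : QU.NiceDom Γ F₀)
    (hF : IsFundamentalDomain Γ F (volume : Measure ℍ)) (h : ℍ → ℝ) (hi : ∀ (γ : Γ) (z : ℍ), h (γ • z) = h z)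
    (φ : ℍ → ℂ) (hφ : ∀ (γ : Γ) (z : ℍ), φ (γ • z) = φ z) :
    ∫ z in F, h z * ‖φ z‖ ^ 2 = ∫ z in F₀, h z * ‖φ z‖ ^ 2 := by
  refine EFD_int Γ F F₀ hΓ hF₀ hF ℝ _ ?_
  intro γ z
  show h (γ • z) * ‖φ (γ • z)‖ ^ 2 = h z * ‖φ z‖ ^ 2
  rw [hi, hφ]

theorem EFD_tubeo (Γ : Subgroup SL(2, ℝ)) (c : ℝ → ℍ) (δ : ℝ) : IsOpen (Tube Γ c δ) := by
  have h : Tube Γ c δ = ⋃ (γ : Γ), ⋃ (t : ℝ), {z : ℍ | dist (γ • z) (c t) < δ} := by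
    ext z
    simp [Tube]
  rw [h]
  refine isOpen_iUnion fun γ => isOpen_iUnion fun t => ?_
  refine isOpen_lt ?_ continuous_const
  exact (continuous_const_smul (γ : SL(2, ℝ))).dist continuous_const

theorem EFD_tubei (Γ : Subgroup SL(2, ℝ)) (c : ℝ → ℍ) (δ : ℝ) (γ : Γ) (z : ℍ) :
    γ • z ∈ Tube Γ c δ ↔ z ∈ Tube Γ c δ := by
  constructor
  · rintro ⟨γ', t, h⟩
    exact ⟨γ' * γ, t, by rw [mul_smul]; exact h⟩
  · rintro ⟨γ', t, h⟩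
    exact ⟨γ' * γ⁻¹, t, by rw [mul_smul, inv_smul_smul]; exact h⟩

theorem EFD_tube (Γ : Subgroup SL(2, ℝ)) (F F₀ : Set ℍ) (hΓ : QU.SurfaceGroup Γ) (hF₀ : QU.NiceDom Γ F₀)
    (hF : IsFundamentalDomain Γ F (volume : Measure ℍ)) (c : ℝ → ℍ) (δ : ℝ)
    (φ : ℍ → ℂ) (hφ : ∀ (γ : Γ) (z : ℍ), φ (γ • z) = φ z) :
    ∫ z in F ∩ Tube Γ c δ, ‖φ z‖ ^ 2 = ∫ z in F₀ ∩ Tube Γ c δ, ‖φ z‖ ^ 2 := by
  have hm := (EFD_tubeo Γ c δ).measurableSet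
  rw [← setIntegral_indicator hm, ← setIntegral_indicator hm]
  refine EFD_int Γ F F₀ hΓ hF₀ hF ℝ _ ?_
  intro γ z
  by_cases hz : z ∈ Tube Γ c δ
  · rw [indicator_of_mem hz, indicator_of_mem ((EFD_tubei Γ c δ γ z).mpr hz)]
    show ‖φ (γ • z)‖ ^ 2 = ‖φ z‖ ^ 2
    rw [hφ]
  · rw [indicator_of_notMem hz, indicator_of_notMem (fun h => hz ((EFD_tubei Γ c δ γ z).mp h))]

theorem EFD_cont (hGLC : GLC_stmt) (h : ℍ → ℝ) (hc : Continuous h) (T : ℝ) :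
    Continuous fun g : SL(2, ℝ) => Real.exp (∫ t in (0 : ℝ)..T, h ((g * aM t) • I)) := by
  refine Real.continuous_exp.comp ?_
  have h1 : Continuous (Function.uncurry fun (g : SL(2, ℝ)) (t : ℝ) => h ((g * aM t) • I)) := by
    have h2 : Continuous fun p : SL(2, ℝ) × ℝ => (p.1 * aM p.2) :=
      continuous_fst.mul (hGLC.2.2.2.1.comp continuous_snd)
    exact hc.comp (h2.smul continuous_const)
  exact intervalIntegral.continuous_parametric_intervalIntegral_of_continuous' h1 0 T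

theorem EFD_inv (hGLC : GLC_stmt) (Γ : Subgroup SL(2, ℝ)) (u : SL(2, ℝ) → ℝ)
    (hu : ∀ (γ : Γ) (g : SL(2, ℝ)), u ((γ : SL(2, ℝ)) * g) = u g) (γ : Γ) (z : ℍ) :
    ∫ θ in (0 : ℝ)..(2 * Real.pi), u (toSL2R (γ • z) * kM θ) = ∫ θ in (0 : ℝ)..(2 * Real.pi), u (toSL2R z * kM θ) := by
  obtain ⟨-, -, -, -, -, -, -, -, -, -, -, -, -, hadd, hper, -, hK, -⟩ := hGLC
  obtain ⟨α, hα⟩ := hK ((toSL2R (γ • z))⁻¹ * ((γ : SL(2, ℝ)) * toSL2R z)) (by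
    rw [mul_smul, mul_smul, toSL2R_smul_I, inv_smul_eq_iff, toSL2R_smul_I]
    rfl)
  have h1 : (γ : SL(2, ℝ)) * toSL2R z = toSL2R (γ • z) * kM α := by
    rw [← hα, mul_inv_cancel_left]
  have h2 : ∀ θ, u (toSL2R z * kM θ) = u (toSL2R (γ • z) * kM (θ + α)) := by
    intro θ
    rw [← hu γ (toSL2R z * kM θ), ← mul_assoc, h1, mul_assoc, ← hadd, add_comm α θ]
  have h3 : Function.Periodic (fun θ : ℝ => u (toSL2R (γ • z) * kM θ)) (2 * Real.pi) := by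
    intro θ
    show u (toSL2R (γ • z) * kM (θ + 2 * Real.pi)) = u (toSL2R (γ • z) * kM θ)
    rw [hper]
  have h4 := h3.intervalIntegral_add_eq 0 α
  rw [zero_add] at h4
  rw [h4]
  have h5 := intervalIntegral.integral_comp_add_right (a := 0) (b := 2 * Real.pi)
    (fun θ : ℝ => u (toSL2R (γ • z) * kM θ)) α
  rw [zero_add, add_comm (2 * Real.pi) α] at h5
  rw [← h5]
  refine intervalIntegral.integral_congr fun θ _ => ?_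
  exact (h2 θ).symm

theorem EFD_main (hGLC : GLC_stmt) (hGMG : GMG_stmt) (Γ : Subgroup SL(2, ℝ)) (F F₀ : Set ℍ)
    (hΓ : QU.SurfaceGroup Γ) (hF₀ : QU.NiceDom Γ F₀)
    (hF : IsFundamentalDomain Γ F (volume : Measure ℍ)) (h : ℍ → ℝ) (hc : Continuous h)
    (hi : ∀ (γ : Γ) (z : ℍ), h (γ • z) = h z) (T : ℝ) :
    iR F₀ (fun g => Real.exp (∫ t in (0 : ℝ)..T, h ((g * aM t) • I))) ≤
      ∫ z in F, ∫ θ in (0 : ℝ)..(2 * Real.pi), Real.exp (∫ t in (0 : ℝ)..T, h (gd z θ t)) := by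
  set u : SL(2, ℝ) → ℝ := fun g => Real.exp (∫ t in (0 : ℝ)..T, h ((g * aM t) • I)) with hu
  have hui : ∀ (γ : Γ) (g : SL(2, ℝ)), u ((γ : SL(2, ℝ)) * g) = u g := by
    intro γ g
    have h1 : ∀ t, h (((γ : SL(2, ℝ)) * g * aM t) • I) = h ((g * aM t) • I) := by
      intro t
      rw [mul_assoc, mul_smul]
      exact hi γ _
    show Real.exp (∫ t in (0 : ℝ)..T, h (((γ : SL(2, ℝ)) * g * aM t) • I)) = _
    simp only [h1]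
    rfl
  have hg : ∀ z θ, Real.exp (∫ t in (0 : ℝ)..T, h (gd z θ t)) = u (toSL2R z * kM θ) := by
    intro z θ
    show _ = Real.exp (∫ t in (0 : ℝ)..T, h ((toSL2R z * kM θ * aM t) • I))
    have h1 : ∀ t, gd z θ t = (toSL2R z * kM θ * aM t) • I := by
      intro t
      rw [mul_smul, mul_smul]
      rfl
    simp only [h1]
  have h2 : iR F₀ u = ∫ z in F₀, (2 * Real.pi)⁻¹ • ∫ θ in (0 : ℝ)..(2 * Real.pi), u (toSL2R z * kM θ) :=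
    (hGMG.2.2.2.2 ℝ u F₀ (EFD_cont hGLC h hc T) hF₀.meas hF₀.rel).2
  have h3 : ∫ z in F, ∫ θ in (0 : ℝ)..(2 * Real.pi), Real.exp (∫ t in (0 : ℝ)..T, h (gd z θ t)) =
      ∫ z in F₀, ∫ θ in (0 : ℝ)..(2 * Real.pi), u (toSL2R z * kM θ) := by
    simp only [hg]
    exact EFD_int Γ F F₀ hΓ hF₀ hF ℝ _ (fun γ z => EFD_inv hGLC Γ u hui γ z)
  rw [h2, h3, integral_smul, smul_eq_mul]
  have h4 : 0 ≤ ∫ z in F₀, ∫ θ in (0 : ℝ)..(2 * Real.pi), u (toSL2R z * kM θ) := by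
    refine integral_nonneg fun z => ?_
    refine intervalIntegral.integral_nonneg (by positivity) fun θ _ => ?_
    exact (Real.exp_pos _).le
  have h5 : (2 * Real.pi)⁻¹ ≤ 1 := by
    refine inv_le_one_of_one_le₀ ?_
    linarith [Real.pi_gt_three]
  exact mul_le_of_le_one_left h4 h5

theorem EFD (hGLC : GLC_stmt) (hGMG : GMG_stmt) (hGFD : GFD_stmt) (hGBD : GBD_stmt) (hEP2 : EP2_stmt)
    (hESC : ESC_stmt) : EFD_stmt := by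
  have _ := hGFD
  have _ := hGBD
  intro Γ F hΓ hF
  obtain ⟨F₀, hF₀⟩ := QU.A_DOM Γ hΓ
  refine ⟨?_, ?_⟩
  · intro h p hc hi hT ε hε
    obtain ⟨T₀, hT₀⟩ := hT
    obtain ⟨r₀, hr₀, H⟩ := hEP2 Γ F₀ h p hΓ hF₀ ⟨hc, hi⟩
      ⟨T₀, fun T hTT => (EFD_main hGLC hGMG Γ F F₀ hΓ hF₀ hF h hc hi T).trans (hT₀ T hTT)⟩ ε hε
    refine ⟨r₀, fun r N s φ hr hN hfam => ?_⟩
    have h1 := H r N s φ hr hN (EFD_fam Γ F F₀ hΓ hF₀ hF r N s φ hfam)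
    have h2 : ∀ j, ∫ z in F, h z * ‖φ j z‖ ^ 2 = ∫ z in F₀, h z * ‖φ j z‖ ^ 2 := fun j =>
      EFD_sq Γ F F₀ hΓ hF₀ hF h hi (φ j) (hfam.2.1 j).2.1
    simp only [h2]
    exact h1
  · intro c hc ε hε
    obtain ⟨δ, r₀, hδ, hr₀, H⟩ := hESC Γ F₀ c hΓ hF₀ hc ε hε
    refine ⟨δ, r₀, hδ, fun σ r N s φ hr hfam hσ => ?_⟩
    refine H σ r N s φ hr (EFD_fam Γ F F₀ hΓ hF₀ hF r N s φ hfam) fun j => ?_
    rw [← EFD_tube Γ F F₀ hΓ hF₀ hF c δ (φ j) (hfam.2.1 j).2.1]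
    exact hσ j

end Pool.Agent.RS
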