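import Pool.Agent.helper62.RS.SpecG

set_option autoImplicit false

open scoped MatrixGroups ContDiff Topology UpperHalfPlane
open UpperHalfPlane MeasureTheory Filter Set

namespace Pool.Agent.RS

theorem GBD (hGLC : GLC_stmt) : GBD_stmt := by
  intro Γ E _ u hΓ hu
  obtain ⟨K, hK, hcov⟩ := hΓ.cocompact
  have hC := hGLC.2.2.1 K hK
  have hred : ∀ g : SL(2, ℝ), ∃ γ : Γ, ((γ : SL(2, ℝ)) * g) ∈ {g : SL(2, ℝ) | g • I ∈ K} := by
    intro g
    obtain ⟨γ, hγ⟩ := hcov (g • I)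
    refine ⟨γ, ?_⟩
    show ((γ : SL(2, ℝ)) * g) • I ∈ K
    rw [mul_smul]
    exact hγ
  constructor
  · obtain ⟨m, hm⟩ := hC.exists_bound_of_continuousOn hu.1.continuousOn
    refine ⟨m, fun g => ?_⟩
    obtain ⟨γ, hγ⟩ := hred g
    rw [← hu.2 γ g]
    exact hm _ hγ
  · intro ε hε
    have h1 : ∀ g ∈ {g : SL(2, ℝ) | g • I ∈ K}, ∀ᶠ z : SL(2, ℝ) × SL(2, ℝ) in 𝓝 (1, g),
        ‖u (z.2 * z.1) - u z.2‖ ≤ ε := by
      intro g _
      have hc : Continuous (fun z : SL(2, ℝ) × SL(2, ℝ) => ‖u (z.2 * z.1) - u z.2‖) :=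
        ((hu.1.comp (continuous_snd.mul continuous_fst)).sub (hu.1.comp continuous_snd)).norm
      have h0 : (fun z : SL(2, ℝ) × SL(2, ℝ) => ‖u (z.2 * z.1) - u z.2‖) (1, g) < ε := by
        show ‖u (g * 1) - u g‖ < ε
        rw [mul_one, sub_self, norm_zero]
        exact hε
      exact ((hc.tendsto (1, g)).eventually (gt_mem_nhds h0)).mono fun _ h => le_of_lt h
    have h2 := hC.eventually_forall_of_forall_eventually
      (P := fun h g : SL(2, ℝ) => ‖u (g * h) - u g‖ ≤ ε) h1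
    refine ⟨_, h2, fun g h hh => ?_⟩
    obtain ⟨γ, hγ⟩ := hred g
    have h3 := hh _ hγ
    rw [mul_assoc, hu.2 γ (g * h), hu.2 γ g] at h3
    exact h3

end Pool.Agent.RS
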