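import Pool.Agent.helper62.RS.SpecG

/-!
Row GIP of project RS: integration by parts on `Γ \ G`.
-/

set_option autoImplicit false

open scoped MatrixGroups ContDiff Topology UpperHalfPlane
open UpperHalfPlane MeasureTheory Filter Set

namespace Pool.Agent.RS

theorem GIP_der (h : ℝ → SL(2, ℝ)) (u u' : SL(2, ℝ) → ℂ) (hadd : ∀ s t, h (s + t) = h s * h t)
    (hu : ∀ g, HasDerivAt (fun t => u (g * h t)) (u' g) 0) (g : SL(2, ℝ)) (t : ℝ) :
    HasDerivAt (fun t => u (g * h t)) (u' (g * h t)) t := by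
  have h1 : HasDerivAt (fun τ : ℝ => u (g * h t * h τ)) (u' (g * h t)) (t + -t) := by
    rw [add_neg_cancel]
    exact hu (g * h t)
  have h2 := h1.comp_add_const t (-t)
  have h3 : (fun τ : ℝ => u (g * h t * h (τ + -t))) = fun τ => u (g * h τ) := by
    funext τ
    rw [mul_assoc, ← hadd]
    congr 3
    ring
  rw [h3] at h2
  exact h2

theorem GIP (hGLC : GLC_stmt) (hGMG : GMG_stmt) (hGFD : GFD_stmt) (hGBD : GBD_stmt) : GIP_stmt := by
  have _ := hGLC
  have _ := hGMG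
  intro Γ F h u u' v v' hΓ hF hc hadd hu hu' hv hv' hdu hdv
  obtain ⟨⟨hm, hvol, hfin, -⟩, hG⟩ := hGFD Γ F hΓ hF
  obtain ⟨mu, hmu⟩ := (hGBD Γ ℂ u hΓ hu).1
  obtain ⟨mu', hmu'⟩ := (hGBD Γ ℂ u' hΓ hu').1
  obtain ⟨mv, hmv⟩ := (hGBD Γ ℂ v hΓ hv).1
  obtain ⟨mv', hmv'⟩ := (hGBD Γ ℂ v' hΓ hv').1
  have hfm : IsFiniteMeasure (mG.restrict (dG F)) := ⟨by rw [Measure.restrict_apply_univ]; exact hfin⟩
  have hint : ∀ f : SL(2, ℝ) → ℂ, Continuous f → (∃ m : ℝ, ∀ g, ‖f g‖ ≤ m) →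
      Integrable f (mG.restrict (dG F)) := by
    rintro f hf ⟨m, hm⟩
    exact Integrable.of_bound hf.aestronglyMeasurable m (Eventually.of_forall hm)
  have h0 : h 0 = 1 := by
    have h1 := hadd 0 0
    rw [add_zero] at h1
    exact (mul_eq_left.mp h1.symm)
  have hb1 : ∀ g, ‖u' g * v g‖ ≤ |mu'| * |mv| := by
    intro g
    rw [norm_mul]
    exact mul_le_mul ((hmu' g).trans (le_abs_self _)) ((hmv g).trans (le_abs_self _)) (norm_nonneg _)
      (abs_nonneg _)
  have hb2 : ∀ g, ‖u g * v' g‖ ≤ |mu| * |mv'| := by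
    intro g
    rw [norm_mul]
    exact mul_le_mul ((hmu g).trans (le_abs_self _)) ((hmv' g).trans (le_abs_self _)) (norm_nonneg _)
      (abs_nonneg _)
  have hb3 : ∀ g, ‖u g * v g‖ ≤ |mu| * |mv| := by
    intro g
    rw [norm_mul]
    exact mul_le_mul ((hmu g).trans (le_abs_self _)) ((hmv g).trans (le_abs_self _)) (norm_nonneg _)
      (abs_nonneg _)
  have hcg : ∀ t : ℝ, Continuous fun g : SL(2, ℝ) => g * h t := fun t => continuous_id.mul continuous_const
  have hi1 : Integrable (fun g => u' g * v g) (mG.restrict (dG F)) :=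
    hint _ (hu'.1.mul hv.1) ⟨_, hb1⟩
  have hi2 : Integrable (fun g => u g * v' g) (mG.restrict (dG F)) :=
    hint _ (hu.1.mul hv'.1) ⟨_, hb2⟩
  have hD := (hasDerivAt_integral_of_dominated_loc_of_deriv_le (μ := mG.restrict (dG F)) (𝕜 := ℝ)
    (F := fun (t : ℝ) (g : SL(2, ℝ)) => u (g * h t) * v (g * h t))
    (F' := fun (t : ℝ) (g : SL(2, ℝ)) => u' (g * h t) * v (g * h t) + u (g * h t) * v' (g * h t))
    (x₀ := (0 : ℝ)) (bound := fun _ => |mu'| * |mv| + |mu| * |mv'|) (s := univ) univ_mem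
    (Eventually.of_forall fun t =>
      ((hu.1.comp (hcg t)).mul (hv.1.comp (hcg t))).aestronglyMeasurable)
    (hint _ ((hu.1.comp (hcg 0)).mul (hv.1.comp (hcg 0))) ⟨_, fun g => hb3 (g * h 0)⟩)
    (((hu'.1.comp (hcg 0)).mul (hv.1.comp (hcg 0))).add
      ((hu.1.comp (hcg 0)).mul (hv'.1.comp (hcg 0)))).aestronglyMeasurable
    (Eventually.of_forall fun g t _ => (norm_add_le _ _).trans (add_le_add (hb1 _) (hb2 _)))
    (integrable_const _)
    (Eventually.of_forall fun g t _ =>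
      (GIP_der h u u' hadd hdu g t).mul (GIP_der h v v' hadd hdv g t))).2
  have hconst : (fun t : ℝ => ∫ g in dG F, u (g * h t) * v (g * h t) ∂mG) =
      fun _ => ∫ g in dG F, u g * v g ∂mG := by
    funext t
    refine (hG ℂ).1 (fun g => u g * v g) (h t) ?_
    intro γ g
    show u ((γ : SL(2, ℝ)) * g) * v ((γ : SL(2, ℝ)) * g) = u g * v g
    rw [hu.2, hv.2]
  rw [hconst] at hD
  have hz := hD.unique (hasDerivAt_const (0 : ℝ) (∫ g in dG F, u g * v g ∂mG))
  have hz2 : ∫ g in dG F, (u' g * v g + u g * v' g) ∂mG = 0 := by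
    rw [← hz]
    refine integral_congr_ae (Eventually.of_forall fun g => ?_)
    show u' g * v g + u g * v' g = u' (g * h 0) * v (g * h 0) + u (g * h 0) * v' (g * h 0)
    rw [h0, mul_one]
  rw [integral_add hi1 hi2] at hz2
  exact eq_neg_of_add_eq_zero_left hz2

end Pool.Agent.RS
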