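import Pool.Agent.helper29.RS.SpecK
import Pool.Agent.helper62.QU.All

/-!
Row NR5 of project RS: the norm of `u ↦ Wf f u` is attained at an eigenfunction.
-/

set_option autoImplicit false

namespace Pool.Agent.RS

open scoped MatrixGroups ContDiff Topology UpperHalfPlane ComplexConjugate
open UpperHalfPlane MeasureTheory Filter Set

theorem NR5_swap (A B : ℍ → ℍ → ℂ) (v : ℍ → ℂ) (hA : Continuous (Function.uncurry A))
    (hB : Continuous (Function.uncurry B)) (hAp : ∃ R : ℝ, ∀ z w, A z w ≠ 0 → dist z w ≤ R)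
    (hBp : ∃ R : ℝ, ∀ z w, B z w ≠ 0 → dist z w ≤ R) (hv : Continuous v) (z : ℍ) :
    (∫ w : ℍ, A z w * ∫ x : ℍ, B w x * v x) = ∫ x : ℍ, (∫ w : ℍ, A z w * B w x) * v x := by
  obtain ⟨RA, hRA⟩ := hAp
  obtain ⟨RB, hRB⟩ := hBp
  have h1 : ∀ w, (A z w * ∫ x : ℍ, B w x * v x) = ∫ x : ℍ, A z w * (B w x * v x) := by
    intro w
    rw [integral_const_mul]
  have h2 : ∀ x, (∫ w : ℍ, A z w * B w x) * v x = ∫ w : ℍ, A z w * (B w x * v x) := by
    intro x
    rw [← integral_mul_const]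
    simp only [mul_assoc]
  simp only [h1, h2]
  refine integral_integral_swap_of_hasCompactSupport (f := fun w x => A z w * (B w x * v x)) ?_ ?_
  · have hA' : Continuous fun p : ℍ × ℍ => A z p.1 :=
      hA.comp (continuous_const.prodMk continuous_fst)
    exact hA'.mul (hB.mul (hv.comp continuous_snd))
  · refine HasCompactSupport.of_support_subset_isCompact
      ((isCompact_closedBall z RA).prod (isCompact_closedBall z (RA + RB))) ?_
    rintro ⟨w, x⟩ hp
    have hp' : A z w * (B w x * v x) ≠ 0 := hp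
    have h3 := hRA z w (left_ne_zero_of_mul hp')
    have h4 := hRB w x (left_ne_zero_of_mul (right_ne_zero_of_mul hp'))
    refine ⟨?_, ?_⟩
    · show dist w z ≤ RA
      rw [dist_comm]; exact h3
    · show dist x z ≤ RA + RB
      rw [dist_comm]
      exact (dist_triangle z w x).trans (add_le_add h3 h4)

theorem NR5_comm (A B : ℍ → ℍ → ℂ) (hA : ∀ (g : SL(2, ℝ)) (z w : ℍ), A (g • z) (g • w) = A z w)
    (hB : ∀ (g : SL(2, ℝ)) (z w : ℍ), B (g • z) (g • w) = B z w) (hAs : ∀ z w, A z w = A w z)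
    (hBs : ∀ z w, B z w = B w z) (z x : ℍ) (hg : ∃ g : SL(2, ℝ), g • z = x ∧ g • x = z) :
    ∫ w : ℍ, A z w * B w x = ∫ w : ℍ, B z w * A w x := by
  obtain ⟨g, h1, h2⟩ := hg
  rw [← QU.INV_d ℂ g (fun w => A z w * B w x)]
  refine integral_congr_ae (Eventually.of_forall fun w => ?_)
  show A z (g • w) * B (g • w) x = B z w * A w x
  have e1 : A z (g • w) = A x w := by
    rw [← h2, hA]
  have e2 : B (g • w) x = B w z := by
    rw [← h1, hB]
  rw [e1, e2, hAs x w, hBs w z, mul_comm]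

theorem NR5 (hGLC : GLC_stmt) (hNR1 : NR1_stmt) (hNR2 : NR2_stmt) (hNR3 : NR3_stmt) (hNRF : NRF_stmt)
    (hNRL : NRL_stmt) : NR5_stmt := by
  have _ := hGLC
  intro Γ F f hΓ hF hf hfc
  obtain ⟨hc, hi, hp, hx, hs, hr⟩ := hNR1 f hf hfc
  obtain ⟨-, -, tts, tti, ttc, ttR, -, -⟩ := QU.A_TTT
  obtain ⟨cvI, -, -, -, -, cvC, -, -⟩ := QU.A_CVB ℂ
  set K : ℍ → ℍ → ℝ := fun z w => (kf f z w).re with hK
  have hKk : ∀ z w, ((K z w : ℝ) : ℂ) = kf f z w := fun z w => Complex.conj_eq_iff_re.mp (hr z w)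
  have hPK : QU.PKer Γ K := by
    refine ⟨Complex.continuous_re.comp hc, fun z w => ?_, fun γ z w => ?_, ?_⟩
    · show (kf f z w).re = (kf f w z).re
      rw [hs]
    · show (kf f (γ • z) (γ • w)).re = (kf f z w).re
      rw [show kf f (γ • z) (γ • w) = kf f z w from hi (γ : SL(2, ℝ)) z w]
    · obtain ⟨R, hR⟩ := hp
      refine ⟨R, fun z w h => hR z w fun h0 => h ?_⟩
      show (kf f z w).re = 0
      rw [h0, Complex.zero_re]
  have hkop : ∀ (u : ℍ → ℂ) z, kop K u z = ∫ w : ℍ, kf f z w * u w := by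
    intro u z
    unfold kop
    simp only [hKk]
  have hQ : ∀ u : ℍ → ℂ, InvC Γ u → ((iR F (fun g => ‖Wf f u g‖ ^ 2) : ℝ) : ℂ) =
      ∫ z in F, conj (u z) * kop K u z := by
    intro u hu
    rw [hNR2 Γ F f u hΓ hF hf hfc hu]
    simp only [hkop]
  have hQre : ∀ u : ℍ → ℂ, InvC Γ u → (∫ z in F, conj (u z) * kop K u z).re =
      iR F (fun g => ‖Wf f u g‖ ^ 2) := by
    intro u hu
    rw [← hQ u hu, Complex.ofReal_re]
  obtain ⟨q, hq0, hqb, hqe⟩ := hNR3 Γ F K hΓ hF hPK (fun u hu => by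
    rw [hQre u hu]
    exact integral_nonneg fun g => by positivity)
  refine ⟨q, hq0, fun u hu => by rw [← hQre u hu]; exact hqb u hu, ?_⟩
  rcases hqe with h0 | ⟨v₀, hv₀, ⟨z₀, hz₀⟩, hv₀e⟩
  · exact Or.inl h0
  by_cases hq : q = 0
  · exact Or.inl hq
  right
  obtain ⟨E, hE, hEm⟩ := hNRF Γ F K q hΓ hF hPK hq
  have hEne : E ≠ ⊥ := by
    intro hb
    have h1 : v₀ ∈ E := (hEm v₀).mpr ⟨hv₀, hv₀e⟩
    rw [hb, Submodule.mem_bot] at h1
    exact hz₀ (by rw [h1]; rfl)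
  have hEs : ∀ κ : ℝ → ℝ, QU.RK κ → ∀ v ∈ E, QU.conv κ v ∈ E := by
    intro κ hκ v hv
    obtain ⟨hvI, hve⟩ := (hEm v).mp hv
    set B : ℍ → ℍ → ℂ := fun w x => ((κ (QU.tt w x) : ℝ) : ℂ) with hB
    have hconv : ∀ (u : ℍ → ℂ) z, QU.conv κ u z = ∫ x : ℍ, B z x * u x := by
      intro u z
      unfold QU.conv
      simp only [Complex.real_smul]
      rfl
    have hBc : Continuous (Function.uncurry B) :=
      Complex.continuous_ofReal.comp (hκ.smooth.continuous.comp ttc)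
    have hBp : ∃ R : ℝ, ∀ z w, B z w ≠ 0 → dist z w ≤ R := by
      obtain ⟨s, hs⟩ := hκ.supp
      obtain ⟨R, -, hR⟩ := ttR s
      refine ⟨R, fun z w h => hR z w ?_⟩
      by_contra h1
      refine h ?_
      show ((κ (QU.tt z w) : ℝ) : ℂ) = 0
      rw [hs _ (not_le.mp h1).le, Complex.ofReal_zero]
    have hBi : ∀ (g : SL(2, ℝ)) (z w : ℍ), B (g • z) (g • w) = B z w := by
      intro g z w
      show ((κ (QU.tt (g • z) (g • w)) : ℝ) : ℂ) = ((κ (QU.tt z w) : ℝ) : ℂ)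
      rw [tti]
    have hBs : ∀ z w, B z w = B w z := by
      intro z w
      show ((κ (QU.tt z w) : ℝ) : ℂ) = ((κ (QU.tt w z) : ℝ) : ℂ)
      rw [tts]
    refine (hEm _).mpr ⟨⟨cvC κ v hκ hvI.1, fun γ z => ?_⟩, fun z => ?_⟩
    · have h1 := cvI κ v (γ : SL(2, ℝ)) z
      have h2 : (fun w : ℍ => v ((γ : SL(2, ℝ)) • w)) = v := by
        funext w
        exact hvI.2 γ w
      rw [h2] at h1
      exact h1.symm
    · have e1 : kop K (QU.conv κ v) z = ∫ w : ℍ, kf f z w * ∫ x : ℍ, B w x * v x := by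
        rw [hkop]
        simp only [hconv]
      have e2 : (∫ w : ℍ, B z w * ∫ x : ℍ, kf f w x * v x) = (q : ℂ) * QU.conv κ v z := by
        have h3 : ∀ w, ∫ x : ℍ, kf f w x * v x = (q : ℂ) * v w := by
          intro w
          rw [← hkop, hve w]
        simp only [h3]
        rw [hconv, ← integral_const_mul]
        refine integral_congr_ae (Eventually.of_forall fun w => ?_)
        show B z w * ((q : ℂ) * v w) = (q : ℂ) * (B z w * v w)
        ring
      rw [e1, ← e2, NR5_swap (kf f) B v hc hBc hp hBp hvI.1 z, NR5_swap B (kf f) v hBc hc hBp hp hvI.1 z]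
      refine integral_congr_ae (Eventually.of_forall fun x => ?_)
      show (∫ w : ℍ, kf f z w * B w x) * v x = (∫ w : ℍ, B z w * kf f w x) * v x
      rw [NR5_comm (kf f) B hi hBi hs hBs z x (hx z x)]
  obtain ⟨v, lam, hvE, hvn, hvL⟩ := hNRL Γ F E hΓ hF hE hEne (fun v hv => ((hEm v).mp hv).1) hEs
  refine ⟨lam, v, hvL, hvn, ?_⟩
  obtain ⟨hvI, hve⟩ := (hEm v).mp hvE
  have h4 := hQ v hvI
  have h5 : ∫ z in F, conj (v z) * kop K v z = ((q * nn F v : ℝ) : ℂ) := by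
    have h6 : ∀ z, conj (v z) * kop K v z = (((q * ‖v z‖ ^ 2 : ℝ)) : ℂ) := by
      intro z
      rw [hve z]
      have h7 : conj (v z) * v z = ((‖v z‖ ^ 2 : ℝ) : ℂ) := by
        rw [Complex.conj_mul']
        push_cast
        rfl
      calc conj (v z) * ((q : ℂ) * v z) = (q : ℂ) * (conj (v z) * v z) := by ring
        _ = (((q * ‖v z‖ ^ 2 : ℝ)) : ℂ) := by rw [h7]; push_cast; rfl
    simp only [h6]
    rw [integral_complex_ofReal, integral_const_mul]
    rfl
  rw [h5] at h4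
  exact_mod_cast h4

end Pool.Agent.RS
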